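import Pool.Agent.H23.GZ.Targets5

/-!
Integration over the columns: common lemmas.
-/

namespace Pool.Agent.H16.GZ

open MeasureTheory Pool.Agent.H34.GM Pool.Agent.H34.GZ

theorem det_null (m : ℕ) : volume {z : V m | (mt z).det = 0} = 0 := by
  have hc : Continuous fun z : V m => (mt z).det := Continuous.matrix_det continuous_id
  obtain ⟨S, hS⟩ : ∃ S : Set (V m), S = {z : V m | (mt z).det = 0} := ⟨_, rfl⟩
  have hSm : MeasurableSet S := by
    rw [hS]
    exact (isClosed_singleton.preimage hc).measurableSet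
  rw [← hS]
  obtain ⟨e, he⟩ : ∃ e : V m, e = fun i j => (1 : Mat m) i j := ⟨_, rfl⟩
  obtain ⟨f, hf⟩ : ∃ f : V m → ℝ → ENNReal, f = fun z t => S.indicator 1 (z + t • e) := ⟨_, rfl⟩
  have hfm : Measurable (Function.uncurry f) := by
    rw [hf]
    have h1 : Measurable fun p : V m × ℝ => p.1 + p.2 • e := by fun_prop
    exact (measurable_one.indicator hSm).comp h1
  have h1 : ∫⁻ t in Set.Icc (0 : ℝ) 1, ∫⁻ z, f z t = volume S := by
    have : ∀ t : ℝ, ∫⁻ z, f z t = volume S := by
      intro t
      rw [hf]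
      rw [lintegral_add_right_eq_self (fun z => S.indicator (1 : V m → ENNReal) z) (t • e)]
      rw [lintegral_indicator_one hSm]
    simp [this]
  have h2 : ∫⁻ t in Set.Icc (0 : ℝ) 1, ∫⁻ z, f z t = 0 := by
    rw [lintegral_lintegral_swap]
    · rw [lintegral_eq_zero_iff']
      · refine Filter.Eventually.of_forall fun z => ?_
        show ∫⁻ t in Set.Icc (0 : ℝ) 1, f z t = 0
        have hfin : {t : ℝ | z + t • e ∈ S}.Finite := by
          have hp : ((-(mt z)).charpoly) ≠ 0 := (Matrix.charpoly_monic _).ne_zero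
          refine (Polynomial.rootSet_finite (-(mt z)).charpoly ℝ).subset ?_
          intro t ht
          rw [Polynomial.mem_rootSet]
          refine ⟨hp, ?_⟩
          have h3 : (mt (z + t • e)).det = 0 := by
            have : z + t • e ∈ S := ht
            rw [hS] at this
            exact this
          rw [Polynomial.aeval_def, Polynomial.eval₂_eq_eval_map]
          simp only [Algebra.algebraMap_self, Polynomial.map_id]
          rw [Matrix.eval_charpoly]
          rw [← h3]
          congr 1
          ext i j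
          simp only [he, Matrix.sub_apply, Matrix.neg_apply, Matrix.scalar_apply,
            Matrix.diagonal_apply, Matrix.of_apply, Pi.add_apply, Pi.smul_apply, smul_eq_mul,
            Matrix.one_apply]
          split_ifs <;> ring
        have h0 : ∀ᵐ t ∂(volume.restrict (Set.Icc (0 : ℝ) 1)), f z t = 0 := by
          have : volume {t : ℝ | z + t • e ∈ S} = 0 := hfin.measure_zero _
          refine ae_restrict_of_ae ?_
          rw [ae_iff]
          refine measure_mono_null ?_ this
          intro t ht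
          by_contra h
          refine ht ?_
          rw [hf]
          show S.indicator (1 : V m → ENNReal) (z + t • e) = 0
          have h' : z + t • e ∉ S := h
          rw [Set.indicator_of_notMem h']
        rw [lintegral_congr_ae h0]
        simp
      · exact (Measurable.lintegral_prod_right' hfm).aemeasurable
    · exact (hfm.comp measurable_swap).aemeasurable
  rw [← h1, h2]

theorem det_ae (m : ℕ) : ∀ᵐ z ∂(volume : Measure (V m)), (mt z).det ≠ 0 := by
  rw [ae_iff]
  simpa using det_null m

theorem col_rc {m : ℕ} (k : Fin m) (z : V m) (c : EuclideanSpace ℝ (Fin m)) (l : Fin m) :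
    col (mt (rc k z c)) l = if l = k then c else col (mt z) l := by
  ext i
  unfold col rc
  simp only [Matrix.of_apply]
  split_ifs <;> rfl

theorem col_im {m : ℕ} (k : Fin m) (z : V m) (c : EuclideanSpace ℝ (Fin m)) (l : Fin m)
    (hl : l ≤ k) : col (mt (rc k z c)) '' Set.Iio l = col (mt z) '' Set.Iio l := by
  refine Set.image_congr fun j hj => ?_
  rw [col_rc, if_neg]
  exact ne_of_lt (lt_of_lt_of_le hj hl)

theorem span_rc {m : ℕ} (k : Fin m) (z : V m) (c : EuclideanSpace ℝ (Fin m)) (l : Fin m)
    (hl : l ≤ k) (v : EuclideanSpace ℝ (Fin m)) :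
    (Submodule.span ℝ (col (mt (rc k z c)) '' Set.Iio l)).starProjection v =
      (Submodule.span ℝ (col (mt z) '' Set.Iio l)).starProjection v := by
  have h := col_im k z c l hl
  simp only [h]

theorem oc_lt {m : ℕ} (h : T_GSM) (k : Fin m) (z : V m) (c : EuclideanSpace ℝ (Fin m))
    (l : Fin m) (hl : l < k) : oc (mt (rc k z c)) l = oc (mt z) l := by
  obtain ⟨-, -, -, -, -, h6, -⟩ := h m (mt (rc k z c))
  obtain ⟨-, -, -, -, -, h6', -⟩ := h m (mt z)
  rw [h6, h6', span_rc k z c l hl.le, col_rc, if_neg hl.ne]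

theorem oc_eq {m : ℕ} (h : T_GSM) (k : Fin m) (z : V m) (c : EuclideanSpace ℝ (Fin m)) :
    oc (mt (rc k z c)) k =
      c - (Submodule.span ℝ (col (mt z) '' Set.Iio k)).starProjection c := by
  obtain ⟨-, -, -, -, -, h6, -⟩ := h m (mt (rc k z c))
  rw [h6, span_rc k z c k le_rfl, col_rc, if_pos rfl]

/-- the columns `≥ k` are in the unit cube -/
def AA (m k : ℕ) : Set (V m) := {z | ∀ i l : Fin m, k ≤ (l : ℕ) → z i l ∈ Set.Icc (0 : ℝ) 1}

theorem AA_meas (m k : ℕ) : MeasurableSet (AA m k) := by
  have : AA m k = ⋂ i : Fin m, ⋂ l : Fin m, {z : V m | k ≤ (l : ℕ) → z i l ∈ Set.Icc (0 : ℝ) 1} := by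
    ext z
    simp [AA]
  rw [this]
  refine MeasurableSet.iInter fun i => MeasurableSet.iInter fun l => ?_
  by_cases h : k ≤ (l : ℕ)
  · simp only [h, forall_const]
    exact (by fun_prop : Measurable fun z : V m => z i l) measurableSet_Icc
  · simp [h]

theorem AA_top (m : ℕ) : AA m m = Set.univ := by
  ext z
  simp only [AA, Set.mem_ofPred_eq, Set.mem_univ, iff_true]
  intro i l h
  exact absurd l.2 (not_lt.2 h)

theorem AA_zero (m : ℕ) : volume (AA m 0) = 1 := by
  have : AA m 0 = Set.pi Set.univ (fun _ : Fin m => Set.pi Set.univ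
      (fun _ : Fin m => Set.Icc (0 : ℝ) 1)) := by
    ext z
    simp only [AA, Nat.zero_le, forall_const, Set.mem_pi, Set.mem_univ]
    rfl
  rw [this, volume_pi_pi]
  refine Finset.prod_eq_one fun i _ => ?_
  rw [volume_pi_pi]
  simp

theorem AA_rc {m : ℕ} (k : Fin m) (z : V m) (c : EuclideanSpace ℝ (Fin m)) :
    rc k z c ∈ AA m ((k : ℕ) + 1) ↔ z ∈ AA m ((k : ℕ) + 1) := by
  simp only [AA, Set.mem_ofPred_eq, rc]
  refine forall_congr' fun i => forall_congr' fun l => ?_
  refine imp_congr_right fun h => ?_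
  have : l ≠ k := by
    rintro rfl
    omega
  rw [if_neg this]

theorem AA_inter {m : ℕ} (k : Fin m) :
    {z : V m | ∀ i, z i k ∈ Set.Icc (0 : ℝ) 1} ∩ AA m ((k : ℕ) + 1) = AA m k := by
  ext z
  simp only [AA, Set.mem_inter_iff, Set.mem_ofPred_eq]
  constructor
  · rintro ⟨h1, h2⟩ i l hl
    rcases eq_or_lt_of_le hl with h | h
    · have : l = k := Fin.ext h.symm
      rw [this]
      exact h1 i
    · exact h2 i l h
  · intro h
    exact ⟨fun i => h i k le_rfl, fun i l hl => h i l (by omega)⟩

theorem fil_succ {m : ℕ} (k : Fin m) :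
    (Finset.univ.filter fun j : Fin m => (j : ℕ) < (k : ℕ) + 1) =
      insert k (Finset.univ.filter fun j : Fin m => (j : ℕ) < (k : ℕ)) := by
  ext j
  simp only [Finset.mem_filter, Finset.mem_univ, true_and, Finset.mem_insert, Fin.ext_iff]
  omega

end Pool.Agent.H16.GZ
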