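import Pool.Agent.H23.GZ.Targets5

/-!
The row AP1 of the board gz: bounded forms have bounded spherical functions.
-/

namespace Pool.Agent.H16.GZ

open MeasureTheory Pool.Agent.H34.GM Pool.Agent.H34.GZ

theorem ap1_hm_null {m : ℕ} (hm1 : 1 ≤ m) : hm m {z | (mt z).det = 0} = 0 := by
  have hc : Continuous fun z : V m => (mt z).det := Continuous.matrix_det continuous_id
  have hS : MeasurableSet {z : V m | (mt z).det = 0} :=
    (isClosed_singleton.preimage hc).measurableSet
  unfold hm
  rw [withDensity_apply _ hS]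
  rw [setLIntegral_congr_fun hS (g := fun _ => 0)]
  · simp
  · intro z hz
    have hz' : (mt z).det = 0 := hz
    show ENNReal.ofReal ((|(mt z).det| ^ m)⁻¹) = 0
    rw [hz', abs_zero, zero_pow (by omega), inv_zero, ENNReal.ofReal_zero]

theorem pf_AP1 : T_HAR → T_AP1 := by
  intro hHAR m q _ T F lam mu hm1 hF hN k hk
  obtain ⟨B, hB⟩ := hF.bdd
  obtain ⟨g0, x0, hg0, hx0⟩ := hN
  -- the supremum
  obtain ⟨S, hS⟩ : ∃ S : Set ℝ, S = {r : ℝ | ∃ g x, g.det ≠ 0 ∧ r = ‖F g x‖} := ⟨_, rfl⟩
  have hSb : BddAbove S := by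
    refine ⟨B, ?_⟩
    rintro r hr
    rw [hS] at hr
    obtain ⟨g, x, hg, rfl⟩ := hr
    exact hB g x hg
  have hSn : S.Nonempty := by
    rw [hS]
    exact ⟨_, g0, x0, hg0, rfl⟩
  obtain ⟨s, hs⟩ : ∃ s : ℝ, s = sSup S := ⟨_, rfl⟩
  have hle : ∀ g x, g.det ≠ 0 → ‖F g x‖ ≤ s := by
    intro g x hg
    rw [hs]
    refine le_csSup hSb ?_
    rw [hS]
    exact ⟨g, x, hg, rfl⟩
  have hs0 : 0 < s := lt_of_lt_of_le (norm_pos_iff.2 hx0) (hle g0 x0 hg0)
  obtain ⟨P, hP⟩ : ∃ P : ℂ, P = ∫ z, k (mt z) * pw mu (mt z) ∂(hm m) := ⟨_, rfl⟩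
  obtain ⟨I, hI⟩ : ∃ I : ℝ, I = ∫ z, ‖k (mt z)‖ ∂(hm m) := ⟨_, rfl⟩
  rw [← hP, ← hI]
  -- integrability of k
  have hkm : Measurable fun z : V m => k (mt z) := by
    have : Continuous fun z : V m => k (mt z) := hk.cont.comp continuous_id
    exact this.measurable
  have hki : Integrable (fun z : V m => ‖k (mt z)‖) (hm m) := by
    obtain ⟨c, hc, hsup⟩ := hk.supp
    obtain ⟨-, -, -, h4⟩ := hHAR m hm1
    have hfin := h4 c hc
    obtain ⟨E, hE⟩ : ∃ E : Set (V m), E = {z | sz (mt z) ≤ c ∧ c⁻¹ ≤ |(mt z).det|} := ⟨_, rfl⟩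
    have hszc : Continuous fun z : V m => sz (mt z) := by
      unfold sz
      exact continuous_norm.comp continuous_id
    have hdc : Continuous fun z : V m => (mt z).det := Continuous.matrix_det continuous_id
    have hEc : IsClosed E := by
      rw [hE]
      exact (isClosed_le hszc continuous_const).inter (isClosed_le continuous_const hdc.abs)
    have hEb : Bornology.IsBounded E := by
      refine (Metric.isBounded_closedBall (x := (0 : V m)) (r := c)).subset ?_
      intro z hz
      rw [hE] at hz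
      rw [Metric.mem_closedBall, dist_zero_right]
      exact hz.1
    have hEk : IsCompact E := Metric.isCompact_of_isClosed_isBounded hEc hEb
    have hcont : Continuous fun z : V m => ‖k (mt z)‖ := (hk.cont.comp continuous_id).norm
    obtain ⟨M, hM⟩ : ∃ M : ℝ, ∀ z ∈ E, ‖k (mt z)‖ ≤ M := by
      obtain ⟨M, hM⟩ := hEk.exists_bound_of_continuousOn (hcont.continuousOn)
      refine ⟨M, fun z hz => ?_⟩
      have := hM z hz
      rwa [norm_norm] at this
    have h0 : (fun z : V m => ‖k (mt z)‖) = E.indicator (fun z : V m => ‖k (mt z)‖) := by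
      ext z
      by_cases hz : z ∈ E
      · rw [Set.indicator_of_mem hz]
      · rw [Set.indicator_of_notMem hz]
        by_contra h
        have h1 : k (mt z) ≠ 0 := fun h' => h (by rw [h', norm_zero])
        have h2 := hsup (mt z) h1
        exact hz (by rw [hE]; exact h2)
    rw [h0, integrable_indicator_iff hEc.measurableSet]
    refine Measure.integrableOn_of_bounded (M := M) ?_ ?_ ?_
    · rw [hE]
      exact hfin.ne
    · exact hcont.aestronglyMeasurable
    · rw [ae_restrict_iff' hEc.measurableSet]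
      refine Filter.Eventually.of_forall fun z hz => ?_
      rw [norm_norm]
      exact hM z hz
  have key : ∀ g x, g.det ≠ 0 → ‖F g x‖ * ‖P‖ ≤ I * s := by
    intro g x hg
    rw [← norm_mul, hP, ← hF.arch k hk g x hg, hI, ← integral_mul_const]
    refine (norm_integral_le_integral_norm _).trans ?_
    refine integral_mono_of_nonneg (Filter.Eventually.of_forall fun z => norm_nonneg _)
      (hki.mul_const s) ?_
    have hae : ∀ᵐ z ∂(hm m), (mt z).det ≠ 0 := by
      rw [ae_iff]
      simpa using ap1_hm_null hm1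
    refine hae.mono fun z hz => ?_
    show ‖k (mt z) * F (g * (mt z)⁻¹) x‖ ≤ ‖k (mt z)‖ * s
    rw [norm_mul]
    refine mul_le_mul_of_nonneg_left (hle _ x ?_) (norm_nonneg _)
    rw [Matrix.det_mul]
    refine mul_ne_zero hg ?_
    have h1 : (mt z).det * ((mt z)⁻¹).det = 1 := by
      rw [← Matrix.det_mul, Matrix.mul_nonsing_inv _ (isUnit_iff_ne_zero.2 hz), Matrix.det_one]
    intro h2
    rw [h2, mul_zero] at h1
    exact zero_ne_one h1
  have hfin : s * ‖P‖ ≤ I * s := by
    by_contra hcon
    have hP0 : 0 < ‖P‖ := by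
      rcases (norm_nonneg P).eq_or_lt with h | h
      · exfalso
        rw [← h, mul_zero] at hcon
        have : 0 ≤ I * s := by
          have h1 := key g0 x0 hg0
          exact (mul_nonneg (norm_nonneg _) (norm_nonneg _)).trans h1
        exact hcon this
      · exact h
    have h3 : s ≤ I * s / ‖P‖ := by
      rw [hs]
      refine csSup_le hSn ?_
      intro r hr
      rw [hS] at hr
      obtain ⟨g, x, hg, rfl⟩ := hr
      rw [← hs, le_div_iff₀ hP0]
      exact key g x hg
    rw [le_div_iff₀ hP0] at h3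
    exact hcon h3
  have h4 : ‖P‖ * s ≤ I * s := by
    rw [mul_comm]
    exact hfin
  exact le_of_mul_le_mul_right h4 hs0

end Pool.Agent.H16.GZ
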