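import Pool.Agent.H23.GZ.Targets5

/-!
The row TDS of the board gz: the local transforms of the two differences.
-/

namespace Pool.Agent.H16.GZ

open MeasureTheory Pool.Agent.H34.GM Pool.Agent.H34.GZ

theorem mnr_meas (m j : ℕ) : Measurable fun z : V m => mnr (mt z) j := by
  unfold mnr
  by_cases h : j ≤ m
  · simp only [h, dif_pos]
    refine Continuous.measurable (Continuous.matrix_det ?_)
    refine Continuous.matrix_submatrix ?_ _ _
    exact Continuous.matrix_mul (Continuous.matrix_transpose continuous_id) continuous_id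
  · simp only [h, dif_neg, not_false_eq_true]
    exact measurable_const

theorem pw_meas {m : ℕ} (mu : Fin m → ℂ) : Measurable fun z : V m => pw mu (mt z) := by
  unfold pw
  refine Finset.measurable_prod _ fun j _ => ?_
  exact (Complex.measurable_ofReal.comp
    ((mnr_meas m ((j : ℕ) + 1)).div (mnr_meas m (j : ℕ)))).pow_const _

theorem aN_meas (m : ℕ) : Measurable fun z : V m => aN (mt z) := by
  unfold aN
  have hc : Continuous fun z : V m => (mt z).det := Continuous.matrix_det continuous_id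
  exact (hc.abs.measurable).pow_const _

theorem shell_meas (m : ℕ) : MeasurableSet (Shell m) :=
  (measurableSet_le measurable_const (aN_meas m)).inter
    (measurableSet_lt (aN_meas m) measurable_const)

theorem sz_smul' {m : ℕ} (c : ℝ) (z : Mat m) : sz (c • z) = |c| * sz z := by
  unfold sz
  have : (fun i j => (c • z) i j : V m) = c • (fun i j => z i j : V m) := rfl
  rw [this, norm_smul, Real.norm_eq_abs]

theorem sz_nn {m : ℕ} (z : Mat m) : 0 ≤ sz z := norm_nonneg _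

theorem rap_int {m : ℕ} (h : T_SHP) (hm1 : 1 ≤ m) (mu : Fin m → ℂ) (hmu : ∑ j, mu j = 0)
    (f : Mat m → ℂ) (hf : Measurable fun z : V m => f (mt z)) (hR : Rap f) (r : ℝ) (hr : 0 < r) :
    IntegrableOn (fun z : V m => f ((r⁻¹ * (aN (mt z))⁻¹) • mt z) * pw mu (mt z)) (Shell m)
      (hm m) := by
  obtain ⟨N, hN⟩ := h m hm1 mu hmu
  obtain ⟨M, hM⟩ := hR N
  obtain ⟨s, hs⟩ : ∃ s : ℝ, s = min 1 (r⁻¹ * (Real.exp 1)⁻¹) := ⟨_, rfl⟩
  have hs0 : 0 < s := by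
    rw [hs]
    have : 0 < r⁻¹ * (Real.exp 1)⁻¹ := mul_pos (inv_pos.2 hr) (inv_pos.2 (Real.exp_pos 1))
    exact lt_min one_pos this
  have hM0 : 0 ≤ M := by
    have h1 := hM 0
    have h2 : (0 : ℝ) ≤ ‖f 0‖ := norm_nonneg _
    have h3 : (0 : ℝ) < (1 + sz (0 : Mat m)) ^ (-(N : ℝ)) :=
      Real.rpow_pos_of_pos (by linarith [sz_nn (0 : Mat m)]) _
    by_contra hneg
    have : M * (1 + sz (0 : Mat m)) ^ (-(N : ℝ)) < 0 := mul_neg_of_neg_of_pos (not_le.1 hneg) h3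
    linarith
  refine Integrable.mono' (hN.const_mul (M * s ^ (-(N : ℝ)))) ?_ ?_
  · refine Measurable.aestronglyMeasurable ?_
    refine Measurable.mul ?_ (pw_meas mu)
    have h1 : Measurable fun z : V m => ((r⁻¹ * (aN (mt z))⁻¹) • z : V m) :=
      (measurable_const.mul (aN_meas m).inv).smul measurable_id
    exact hf.comp h1
  · rw [ae_restrict_iff' (shell_meas m)]
    refine Filter.Eventually.of_forall fun z hz => ?_
    rw [norm_mul]
    obtain ⟨h1, h2⟩ : 1 ≤ aN (mt z) ∧ aN (mt z) < Real.exp 1 := hz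
    have ha0 : 0 < aN (mt z) := by linarith
    have h3 := hM ((r⁻¹ * (aN (mt z))⁻¹) • mt z)
    rw [sz_smul'] at h3
    have h4 : r⁻¹ * (Real.exp 1)⁻¹ ≤ r⁻¹ * (aN (mt z))⁻¹ :=
      mul_le_mul_of_nonneg_left (inv_anti₀ ha0 h2.le) (inv_pos.2 hr).le
    have h5 : 0 ≤ r⁻¹ * (aN (mt z))⁻¹ := by positivity
    rw [abs_of_nonneg h5] at h3
    have h6 : s * (1 + sz (mt z)) ≤ 1 + r⁻¹ * (aN (mt z))⁻¹ * sz (mt z) := by
      have e1 : s ≤ 1 := by rw [hs]; exact min_le_left _ _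
      have e2 : s ≤ r⁻¹ * (aN (mt z))⁻¹ := by rw [hs]; exact (min_le_right _ _).trans h4
      have e3 := mul_le_mul_of_nonneg_right e2 (sz_nn (mt z))
      linarith
    have h7 : (1 + r⁻¹ * (aN (mt z))⁻¹ * sz (mt z)) ^ (-(N : ℝ)) ≤
        s ^ (-(N : ℝ)) * (1 + sz (mt z)) ^ (-(N : ℝ)) := by
      rw [← Real.mul_rpow hs0.le (by linarith [sz_nn (mt z)])]
      exact Real.rpow_le_rpow_of_nonpos (mul_pos hs0 (by linarith [sz_nn (mt z)])) h6
        (by simp)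
    calc ‖f ((r⁻¹ * (aN (mt z))⁻¹) • mt z)‖ * ‖pw mu (mt z)‖
        ≤ (M * (s ^ (-(N : ℝ)) * (1 + sz (mt z)) ^ (-(N : ℝ)))) * ‖pw mu (mt z)‖ :=
          mul_le_mul_of_nonneg_right (h3.trans (mul_le_mul_of_nonneg_left h7 hM0))
            (norm_nonneg _)
      _ = M * s ^ (-(N : ℝ)) * ((1 + sz (mt z)) ^ (-(N : ℝ)) * ‖pw mu (mt z)‖) := by ring

theorem th1_sum {m : ℕ} (h : T_SHP) (hm1 : 1 ≤ m) (mu : Fin m → ℂ) (hmu : ∑ j, mu j = 0)
    {ι : Type} (S : Finset ι) (c : ι → ℂ) (g : ι → Mat m → ℂ)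
    (hg : ∀ i, Measurable fun z : V m => g i (mt z)) (hR : ∀ i, Rap (g i)) (r : ℝ) (hr : 0 < r) :
    th1 (fun z => ∑ i ∈ S, c i * g i z) mu r = ∑ i ∈ S, c i * th1 (g i) mu r := by
  unfold th1
  have e : ∀ z : V m, (∑ i ∈ S, c i * g i ((r⁻¹ * (aN (mt z))⁻¹) • mt z)) * pw mu (mt z) =
      ∑ i ∈ S, c i * (g i ((r⁻¹ * (aN (mt z))⁻¹) • mt z) * pw mu (mt z)) := by
    intro z
    rw [Finset.sum_mul]
    exact Finset.sum_congr rfl fun i _ => mul_assoc _ _ _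
  simp only [e]
  rw [integral_finsetSum]
  · exact Finset.sum_congr rfl fun i _ => integral_const_mul _ _
  · intro i _
    exact (rap_int h hm1 mu hmu (g i) (hg i) (hR i) r hr).const_mul _

theorem cpow2 (n : ℕ) (w : ℂ) : (((2 : ℝ) ^ n : ℝ) : ℂ) ^ w = ((2 : ℂ) ^ w) ^ n := by
  induction n with
  | zero => simp
  | succ n ih =>
    rw [pow_succ, pow_succ, ← ih, Complex.ofReal_mul, Complex.mul_cpow_ofReal_nonneg
      (by positivity) (by norm_num)]
    norm_num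

theorem tw_pos {m : ℕ} (n : Fin m → ℕ) : 0 < tw n := Real.rpow_pos_of_pos (by norm_num) _

theorem tw_eq {m : ℕ} (n : Fin m → ℕ) :
    (∏ j, (2 : ℝ) ^ n j) ^ (-(1 / (m : ℝ))) = (tw n)⁻¹ := by
  rw [Finset.prod_pow_eq_pow_sum, Real.rpow_neg (by positivity)]
  unfold tw
  congr 1
  rw [← Real.rpow_natCast, ← Real.rpow_mul (by norm_num)]
  congr 1
  ring

theorem th1_tw {m : ℕ} (f : Mat m → ℂ) (mu : Fin m → ℂ) (t r : ℝ) (ht : 0 < t) :
    th1 (fun z => f (t • z)) mu r = th1 f mu (r * t⁻¹) := by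
  unfold th1
  congr 1
  ext z
  show f (t • ((r⁻¹ * (aN (mt z))⁻¹) • mt z)) * pw mu (mt z) = _
  have e : t * (r⁻¹ * (aN (mt z))⁻¹) = (r * t⁻¹)⁻¹ * (aN (mt z))⁻¹ := by
    rw [mul_inv, inv_inv]
    ring
  rw [smul_smul, e]

theorem rap_tw {m : ℕ} (f : Mat m → ℂ) (hR : Rap f) (t : ℝ) (ht : 0 < t) :
    Rap fun z => f (t • z) := by
  intro N
  obtain ⟨M, hM⟩ := hR N
  have hM0 : 0 ≤ M := by
    have h1 := hM 0
    have h2 : (0 : ℝ) ≤ ‖f 0‖ := norm_nonneg _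
    have h3 : (0 : ℝ) < (1 + sz (0 : Mat m)) ^ (-(N : ℝ)) :=
      Real.rpow_pos_of_pos (by linarith [sz_nn (0 : Mat m)]) _
    by_contra hneg
    have : M * (1 + sz (0 : Mat m)) ^ (-(N : ℝ)) < 0 := mul_neg_of_neg_of_pos (not_le.1 hneg) h3
    linarith
  refine ⟨M * (min 1 t) ^ (-(N : ℝ)), fun z => ?_⟩
  have hs0 : 0 < min 1 t := lt_min one_pos ht
  refine (hM (t • z)).trans ?_
  rw [mul_assoc, sz_smul', abs_of_pos ht]
  refine mul_le_mul_of_nonneg_left ?_ hM0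
  rw [← Real.mul_rpow hs0.le (by linarith [sz_nn z])]
  refine Real.rpow_le_rpow_of_nonpos (mul_pos hs0 (by linarith [sz_nn z])) ?_ (by simp)
  have e1 : min 1 t ≤ 1 := min_le_left _ _
  have e2 : min 1 t * sz z ≤ t * sz z := mul_le_mul_of_nonneg_right (min_le_right _ _) (sz_nn z)
  linarith

theorem rap_sc {m : ℕ} (h : T_SCP) (f : Mat m → ℂ) (hR : Rap f) (ρ : Fin m → ℝ)
    (hρ : ∀ j, 1 ≤ ρ j) : Rap fun z => f (sc ρ z) := by
  intro N
  obtain ⟨-, -, -, -, h5, -, -⟩ := h m ρ fun j => by linarith [hρ j]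
  obtain ⟨M, hM⟩ := hR N
  have hM0 : 0 ≤ M := by
    have h1 := hM 0
    have h2 : (0 : ℝ) ≤ ‖f 0‖ := norm_nonneg _
    have h3 : (0 : ℝ) < (1 + sz (0 : Mat m)) ^ (-(N : ℝ)) :=
      Real.rpow_pos_of_pos (by linarith [sz_nn (0 : Mat m)]) _
    by_contra hneg
    have : M * (1 + sz (0 : Mat m)) ^ (-(N : ℝ)) < 0 := mul_neg_of_neg_of_pos (not_le.1 hneg) h3
    linarith
  obtain ⟨t, ht⟩ : ∃ t : ℝ, t = ((m : ℝ) + 1)⁻¹ := ⟨_, rfl⟩
  have ht0 : 0 < t := by rw [ht]; positivity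
  refine ⟨M * t ^ (-(N : ℝ)), fun z => ?_⟩
  refine (hM (sc ρ z)).trans ?_
  rw [mul_assoc]
  refine mul_le_mul_of_nonneg_left ?_ hM0
  rw [← Real.mul_rpow ht0.le (by linarith [sz_nn z])]
  refine Real.rpow_le_rpow_of_nonpos (mul_pos ht0 (by linarith [sz_nn z])) ?_ (by simp)
  have e1 := h5 hρ z
  have e2 : t * ((m : ℝ) + 1) = 1 := by rw [ht]; exact inv_mul_cancel₀ (by positivity)
  have e3 : t ≤ 1 := by
    rw [ht]
    exact inv_le_one_of_one_le₀ (by linarith [(Nat.cast_nonneg m : (0 : ℝ) ≤ m)])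
  have e4 : t * sz z ≤ t * (m * sz (sc ρ z)) := mul_le_mul_of_nonneg_left e1 ht0.le
  have e5 : t * (m * sz (sc ρ z)) ≤ sz (sc ρ z) := by
    have e6 : t * m ≤ 1 := by
      have : t * m ≤ t * ((m : ℝ) + 1) := mul_le_mul_of_nonneg_left (by linarith) ht0.le
      linarith
    calc t * (m * sz (sc ρ z)) = (t * m) * sz (sc ρ z) := by ring
      _ ≤ 1 * sz (sc ρ z) := mul_le_mul_of_nonneg_right e6 (sz_nn _)
      _ = sz (sc ρ z) := one_mul _
  linarith

theorem pf_TDS : T_SCP → T_DIL → T_SHP → T_TDS := by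
  intro hSCP hDIL hSHP m hm1 mu hmu K f hf hR r hr
  have hd : th1 (dK K (cmu mu) f) mu r =
      ∑ n ∈ nK K, cK K (cmu mu) n * th1 f mu (r * (tw n)⁻¹) := by
    have h1 := th1_sum hSHP hm1 mu hmu (nK K) (fun n => cK K (cmu mu) n)
      (fun n z => f (tw n • z)) (fun n => ?_) (fun n => rap_tw f hR (tw n) (tw_pos n)) r hr
    · have h2 : dK K (cmu mu) f = fun z => ∑ n ∈ nK K, cK K (cmu mu) n * f (tw n • z) := rfl
      rw [h2, h1]
      refine Finset.sum_congr rfl fun n _ => ?_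
      rw [th1_tw f mu (tw n) r (tw_pos n)]
    · have h3 : Measurable fun z : V m => (tw n • z : V m) := measurable_const_smul (tw n)
      exact hf.comp h3
  refine ⟨?_, hd⟩
  rw [hd]
  have hρ1 : ∀ (n : Fin m → ℕ) (j : Fin m), (1 : ℝ) ≤ (2 : ℝ) ^ n j := fun n j =>
    one_le_pow₀ (by norm_num)
  have h1 := th1_sum hSHP hm1 mu hmu (nK K) (fun n => cK K 1 n)
    (fun n z => f (sc (fun j => (2 : ℝ) ^ n j) z)) (fun n => ?_)
    (fun n => rap_sc hSCP f hR _ (hρ1 n)) r hr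
  · have h2 : sK K f = fun z => ∑ n ∈ nK K, cK K 1 n * f (sc (fun j => (2 : ℝ) ^ n j) z) := rfl
    rw [h2, h1]
    refine Finset.sum_congr rfl fun n _ => ?_
    rw [hDIL m hm1 mu hmu (fun j => (2 : ℝ) ^ n j) (fun j => by positivity) f hf r hr, tw_eq,
      ← mul_assoc]
    congr 1
    unfold cK
    rw [← Finset.prod_mul_distrib]
    refine Finset.prod_congr rfl fun j _ => ?_
    rw [cpow2, Pi.one_apply, one_pow, mul_one]
    rfl
  · obtain ⟨-, -, -, -, -, h6, -⟩ := hSCP m (fun j => (2 : ℝ) ^ n j) fun j => by positivity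
    exact hf.comp h6

end Pool.Agent.H16.GZ
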